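import Pool.Agent.KS6_55.Ell.Main

/-!
# Regular polygons in projective-metric spaces of elliptic type

Complete answer for the spaces of elliptic type: no *plane* of elliptic type has the regular
polygon property, whereas the elliptic space of every dimension `m ≥ 3` has it. More precisely, in
a plane of elliptic type two points at the maximal distance `δ` are never adjacent vertices of a
regular quadrangle; and every two different points of the elliptic space of dimension `m` are
adjacent vertices of a regular `n`-gon if and only if `m ≥ 3` or `n ≠ 4, 6`.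

Definitions (`Pool/Agent/KS6_55/Ell/Circle.lean`, `Poly.lean`, `Basic.lean`): `IsEllipticType`,
`IsRegularPolygon`, `AdjacentInNgon`, `RegularPolygonProperty`, `hypDist`, `IsEuclidean`,
`IsHyperbolic`, `ellDist`.
-/

set_option autoImplicit false

namespace Pool.Agent.Results.MP_a3bfba_gt.EllipticType

open Real Pool.Agent.KS6_55.Ell
open scoped InnerProductSpace

/-- planes of elliptic type -/
lemma plane {V : Type} [NormedAddCommGroup V] [InnerProductSpace ℝ V]
    {d : Projectivization ℝ V → Projectivization ℝ V → ℝ} {δ : ℝ}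
    (h3 : Module.finrank ℝ V = 3) (hd : IsEllipticType d δ) :
    (∀ A B, d A B = δ → ¬ AdjacentInNgon d 4 A B) ∧ ¬ RegularPolygonProperty d := by
  haveI : FiniteDimensional ℝ V := FiniteDimensional.of_finrank_pos (by omega)
  have h1 : ∀ A B, d A B = δ → ¬ AdjacentInNgon d 4 A B := by
    rintro A B hAB ⟨P, ⟨hinj, hreg⟩, rfl, rfl⟩
    refine hd.no_quadrangle h3 (P 0) (P 1) (P 2) (P 3) (fun h => ?_) (fun h => ?_) hAB ?_ ?_ ?_
    · exact absurd (hinj h) (by decide)
    · exact absurd (hinj h) (by decide)
    · exact (hreg 0 1 1).symm.trans hAB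
    · exact (hreg 0 1 2).symm.trans hAB
    · exact (hreg 0 1 3).symm.trans hAB
  refine ⟨h1, fun h => ?_⟩
  obtain ⟨A, B, hAB⟩ := exists_max hd (by omega)
  refine h1 A B hAB (h 4 (by norm_num) A B ?_)
  rintro rfl
  rw [(hd.eq_zero A A).2 rfl] at hAB
  exact hd.pos.ne hAB

/-- elliptic spaces -/
lemma space {V : Type} [NormedAddCommGroup V] [InnerProductSpace ℝ V]
    (h3 : 3 ≤ Module.finrank ℝ V) (n : ℕ) (hn : 3 ≤ n) :
    (∀ A B : Projectivization ℝ V, A ≠ B → AdjacentInNgon ellDist n A B) ↔
      (4 ≤ Module.finrank ℝ V ∨ (n ≠ 4 ∧ n ≠ 6)) := by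
  haveI : FiniteDimensional ℝ V := FiniteDimensional.of_finrank_pos (by omega)
  constructor
  · intro h
    by_contra hcon
    push Not at hcon
    obtain ⟨h4, hn'⟩ := hcon
    have hV : Module.finrank ℝ V = 3 := by omega
    obtain ⟨A, B, hAB⟩ := exists_max (ellDist_isEllipticType (V := V)) (by omega)
    have hne : A ≠ B := by
      rintro rfl
      rw [ellDist_self] at hAB
      linarith [pi_pos]
    have key := h A B hne
    by_cases hn4 : n = 4
    · subst hn4
      exact no_quadrangle hV A B hAB key
    · have hn6 := hn' hn4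
      subst hn6
      exact no_hexagon hV A B hAB key
  · intro h A B hAB
    exact exists_ngon h3 n hn h A B hAB

/-- quadrangles of the elliptic plane -/
lemma quadrangle {V : Type} [NormedAddCommGroup V] [InnerProductSpace ℝ V]
    (h3 : Module.finrank ℝ V = 3) (A B : Projectivization ℝ V) (hAB : A ≠ B) :
    AdjacentInNgon ellDist 4 A B ↔ ellDist A B ≠ π / 2 := by
  haveI : FiniteDimensional ℝ V := FiniteDimensional.of_finrank_pos (by omega)
  constructor
  · intro h hd
    exact no_quadrangle h3 A B hd h
  · intro hd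
    obtain ⟨a, b, ha, hb, haA, hbB, h0, h1⟩ := exists_units A B hAB
    obtain ⟨e, he⟩ := exists_orthonormal_fin (V := V) 3 h3.ge
    refine adjacent3 e he 4 1 (by norm_num) (by norm_num) A B a b ha hb haA hbB h1 ?_
    have e1 : 2 * π * ((1 : ℕ) : ℝ) / ((4 : ℕ) : ℝ) = π / 2 := by push_cast; ring
    rw [e1, cos_pi_div_two]
    refine lt_of_le_of_ne h0 fun hz => hd ?_
    obtain ⟨ha0, haA⟩ := haA
    obtain ⟨hb0, hbB⟩ := hbB
    rw [← haA, ← hbB, ellDist_unit a b ha hb, ← hz, abs_zero, arccos_zero]

/-- **Regular polygons in spaces of elliptic type.**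
(1) No plane of elliptic type has the regular polygon property: two points at the maximal distance
`δ` are not adjacent vertices of a regular quadrangle.
(2) The elliptic space `P(V)` of dimension `m = dim V - 1 ≥ 2` is a space of elliptic type; any two
different points of it are adjacent vertices of a regular `n`-gon if and only if `m ≥ 3` or
`n ≠ 4, 6`; and it has the regular polygon property if and only if `m ≥ 3`. In the elliptic plane
two different points are adjacent vertices of a regular quadrangle if and only if their distance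
is not the maximal one.
(3) A space of elliptic type is isometric neither to a Euclidean nor to a hyperbolic space.
(4) So for `m ≥ 2` some space of elliptic type and dimension `m` has the regular polygon property
if and only if `m ≥ 3`. -/
theorem result :
    (∀ (V : Type) [NormedAddCommGroup V] [InnerProductSpace ℝ V]
      (d : Projectivization ℝ V → Projectivization ℝ V → ℝ) (δ : ℝ),
      Module.finrank ℝ V = 3 → IsEllipticType d δ →
        (∀ A B, d A B = δ → ¬ AdjacentInNgon d 4 A B) ∧ ¬ RegularPolygonProperty d) ∧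
    (∀ (V : Type) [NormedAddCommGroup V] [InnerProductSpace ℝ V],
      3 ≤ Module.finrank ℝ V →
        IsEllipticType (ellDist (V := V)) (π / 2) ∧
        (∀ n : ℕ, 3 ≤ n → ((∀ A B : Projectivization ℝ V, A ≠ B → AdjacentInNgon ellDist n A B) ↔
          (4 ≤ Module.finrank ℝ V ∨ (n ≠ 4 ∧ n ≠ 6)))) ∧
        (RegularPolygonProperty (ellDist (V := V)) ↔ 4 ≤ Module.finrank ℝ V) ∧
        (Module.finrank ℝ V = 3 → ∀ A B : Projectivization ℝ V, A ≠ B →
          (AdjacentInNgon ellDist 4 A B ↔ ellDist A B ≠ π / 2))) ∧
    (∀ (V : Type) [NormedAddCommGroup V] [InnerProductSpace ℝ V]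
      (d : Projectivization ℝ V → Projectivization ℝ V → ℝ) (δ : ℝ),
      2 ≤ Module.finrank ℝ V → IsEllipticType d δ → ¬ IsEuclidean d ∧ ¬ IsHyperbolic d) ∧
    (∀ m : ℕ, 2 ≤ m → ((∃ (d : Projectivization ℝ (EuclideanSpace ℝ (Fin (m + 1))) →
        Projectivization ℝ (EuclideanSpace ℝ (Fin (m + 1))) → ℝ) (δ : ℝ),
        IsEllipticType d δ ∧ RegularPolygonProperty d) ↔ 3 ≤ m)) := by
  have rpp : ∀ (V : Type) [NormedAddCommGroup V] [InnerProductSpace ℝ V],
      3 ≤ Module.finrank ℝ V →
        (RegularPolygonProperty (ellDist (V := V)) ↔ 4 ≤ Module.finrank ℝ V) := by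
    intro V _ _ h3
    constructor
    · intro h
      have := (space h3 4 (by norm_num)).1 (h 4 (by norm_num))
      omega
    · intro h n hn
      exact (space h3 n hn).2 (Or.inl h)
  refine ⟨fun V _ _ d δ h3 hd => plane h3 hd, fun V _ _ h3 => ⟨ellDist_isEllipticType,
    fun n hn => space h3 n hn, rpp V h3, fun h A B hAB => quadrangle h A B hAB⟩,
    fun V _ _ d δ h2 hd => ⟨not_isEuclidean hd h2, not_isHyperbolic hd h2⟩, fun m hm => ?_⟩
  have hr : Module.finrank ℝ (EuclideanSpace ℝ (Fin (m + 1))) = m + 1 := by
    rw [finrank_euclideanSpace, Fintype.card_fin]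
  constructor
  · rintro ⟨d, δ, hd, hp⟩
    by_contra h
    exact (plane (by rw [hr]; omega) hd).2 hp
  · intro h
    exact ⟨ellDist, π / 2, ellDist_isEllipticType, (rpp _ (by rw [hr]; omega)).2 (by rw [hr]; omega)⟩

end Pool.Agent.Results.MP_a3bfba_gt.EllipticType
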